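import Pool.Agent.J4H64.UG.Stm

set_option autoImplicit false

/-! The pieces CARD, ONE, ZERO, VAL of the project UG. -/

namespace Pool.Agent.J4H28.UG

open Finset DomAC0 Pool.Agent.J4H64.VC Pool.Agent.J4H64.UG
open scoped Classical

theorem ed_ext {m : ℕ} {B : SimpleGraph (Fin m)} {e e' : Ed B} (h1 : sr B e = sr B e')
    (h2 : tg B e = tg B e') : e = e' := by
  apply Subtype.ext
  exact Prod.ext h1 h2

theorem gm_inj {m n q : ℕ} [NeZero q] {B : SimpleGraph (Fin m)} {C R : Type} [Fintype C] [Fintype R]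
    (w : Ed B → ZMod q) (κ : Fin m × Ps C R (Multiplicative (ZMod q)) ↪ Fin n)
    (ω : Ed B → Equiv.Perm (Ps C R (Multiplicative (ZMod q)))) :
    Function.Injective (fun z : Ed B × Ps C R (Multiplicative (ZMod q)) =>
      (κ (sr B z.1, z.2), κ (tg B z.1, ω z.1 z.2), w z.1)) := by
  rintro ⟨e, p⟩ ⟨e', p'⟩ h
  simp only [Prod.mk.injEq] at h
  have h1 := κ.injective h.1
  have h2 := κ.injective h.2.1
  simp only [Prod.mk.injEq] at h1 h2
  exact Prod.ext (ed_ext h1.1 h2.1) h1.2

theorem t_CARD : S_CARD := by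
  intro m n q _ B C R _ _ w κ ω
  refine ⟨?_, fun L hL v => ?_⟩
  · unfold gm
    rw [card_image_of_injective _ (gm_inj w κ ω), card_univ, Fintype.card_prod]
  · by_cases hv : ∃ z, κ z = v
    · obtain ⟨⟨u, p⟩, rfl⟩ := hv
      have hLu := hL u
      constructor
      · have h1 : ((gm w κ ω).filter fun t => t.1 = κ (u, p)) ⊆
            (univ.filter fun e : Ed B => sr B e = u).image
              (fun e => (κ (sr B e, p), κ (tg B e, ω e p), w e)) := by
          intro t ht
          rw [mem_filter] at ht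
          obtain ⟨ht1, ht2⟩ := ht
          unfold gm at ht1
          rw [mem_image] at ht1
          obtain ⟨⟨e, p'⟩, -, rfl⟩ := ht1
          have h2 := κ.injective ht2
          simp only [Prod.mk.injEq] at h2
          obtain ⟨h3, rfl⟩ := h2
          rw [mem_image]
          exact ⟨e, by rw [mem_filter]; exact ⟨mem_univ _, h3⟩, rfl⟩
        have h2 := (card_le_card h1).trans card_image_le
        omega
      · have h1 : ((gm w κ ω).filter fun t => t.2.1 = κ (u, p)) ⊆
            (univ.filter fun e : Ed B => tg B e = u).image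
              (fun e => (κ (sr B e, (ω e)⁻¹ p), κ (tg B e, p), w e)) := by
          intro t ht
          rw [mem_filter] at ht
          obtain ⟨ht1, ht2⟩ := ht
          unfold gm at ht1
          rw [mem_image] at ht1
          obtain ⟨⟨e, p'⟩, -, rfl⟩ := ht1
          have h2 := κ.injective ht2
          simp only [Prod.mk.injEq] at h2
          obtain ⟨h3, rfl⟩ := h2
          rw [mem_image]
          refine ⟨e, by rw [mem_filter]; exact ⟨mem_univ _, h3⟩, ?_⟩
          simp
        have h2 := (card_le_card h1).trans card_image_le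
        omega
    · have h0 : ∀ z, κ z ≠ v := fun z hz => hv ⟨z, hz⟩
      constructor
      · have h1 : ((gm w κ ω).filter fun t => t.1 = v) = ∅ := by
          rw [filter_eq_empty_iff]
          intro t ht hc
          unfold gm at ht
          rw [mem_image] at ht
          obtain ⟨⟨e, p'⟩, -, rfl⟩ := ht
          exact h0 _ hc
        rw [h1, card_empty]
        exact Nat.zero_le _
      · have h1 : ((gm w κ ω).filter fun t => t.2.1 = v) = ∅ := by
          rw [filter_eq_empty_iff]
          intro t ht hc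
          unfold gm at ht
          rw [mem_image] at ht
          obtain ⟨⟨e, p'⟩, -, rfl⟩ := ht
          exact h0 _ hc
        rw [h1, card_empty]
        exact Nat.zero_le _

theorem t_ONE : S_ONE := by
  intro m n q _ B C R _ _ w κ y
  refine ⟨Function.extend κ (fun z => Multiplicative.toAdd ((y z.1)⁻¹ z.2).b) (fun _ => 0), ?_⟩
  unfold sat
  rw [filter_eq_self]
  intro t ht
  unfold gm at ht
  rw [mem_image] at ht
  obtain ⟨⟨e, p'⟩, -, rfl⟩ := ht
  simp only
  rw [κ.injective.extend_apply, κ.injective.extend_apply]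
  have h1 : p' = y (sr B e) ((y (sr B e))⁻¹ p') := by simp
  have h2 : Pool.Agent.J4H64.UG.mk (sr B) (tg B) (fun e => Multiplicative.ofAdd (w e)) (fun _ => true) y e p' =
      y (tg B e) (Pool.Agent.J4H64.UG.sh (fun _ => true) (Multiplicative.ofAdd (w e)) ((y (sr B e))⁻¹ p')) := by
    conv_lhs => rw [h1]
    rw [Pool.Agent.J4H64.UG.mk_apply]
  rw [h2]
  have h3 : (y (tg B e))⁻¹ (y (tg B e) (Pool.Agent.J4H64.UG.sh (fun _ => true) (Multiplicative.ofAdd (w e)) ((y (sr B e))⁻¹ p'))) = Pool.Agent.J4H64.UG.sh (fun _ => true) (Multiplicative.ofAdd (w e)) ((y (sr B e))⁻¹ p') := by simp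
  rw [h3]
  change Multiplicative.toAdd ((y (sr B e))⁻¹ p').b + w e =
    Multiplicative.toAdd (if (true : Bool) = true then Multiplicative.ofAdd (w e) * ((y (sr B e))⁻¹ p').b
      else ((y (sr B e))⁻¹ p').b)
  rw [if_pos rfl, toAdd_mul, toAdd_ofAdd, add_comm]

theorem t_ZERO : S_ZERO := by
  intro m n q _ B C R _ _ w κ y δ hδ x x'
  have hsub : sat (gm w κ (Pool.Agent.J4H64.UG.mk (sr B) (tg B) (fun e => Multiplicative.ofAdd (w e))
      (fun _ => false) y)) x x' ⊆
      (univ : Finset (Ps C R (Multiplicative (ZMod q)))).biUnion (fun p =>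
        (univ.filter fun e : Ed B => x (κ (sr B e, y (sr B e) p)) + w e =
          x' (κ (tg B e, y (tg B e) p))).image
          (fun e => (κ (sr B e, y (sr B e) p), κ (tg B e, y (tg B e) p), w e))) := by
    intro t ht
    unfold sat at ht
    rw [mem_filter] at ht
    obtain ⟨ht1, ht2⟩ := ht
    unfold gm at ht1
    rw [mem_image] at ht1
    obtain ⟨⟨e, p'⟩, -, rfl⟩ := ht1
    rw [mem_biUnion]
    have h1 : p' = y (sr B e) ((y (sr B e))⁻¹ p') := by simp
    have h2 : Pool.Agent.J4H64.UG.mk (sr B) (tg B) (fun e => Multiplicative.ofAdd (w e)) (fun _ => false) y e p' =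
        y (tg B e) ((y (sr B e))⁻¹ p') := by
      conv_lhs => rw [h1]
      rw [Pool.Agent.J4H64.UG.mk_apply]
      rfl
    refine ⟨(y (sr B e))⁻¹ p', mem_univ _, ?_⟩
    rw [mem_image]
    refine ⟨e, ?_, ?_⟩
    · rw [mem_filter]
      refine ⟨mem_univ _, ?_⟩
      rw [← h1]
      simp only at ht2
      rw [h2] at ht2
      exact ht2
    · simp only
      rw [← h1, h2]
  have h1 := (card_le_card hsub).trans card_biUnion_le
  have h2 : (∑ p : Ps C R (Multiplicative (ZMod q)), ((univ.filter fun e : Ed B =>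
      x (κ (sr B e, y (sr B e) p)) + w e = x' (κ (tg B e, y (tg B e) p))).image
          (fun e => (κ (sr B e, y (sr B e) p), κ (tg B e, y (tg B e) p), w e))).card) ≤
      ∑ p : Ps C R (Multiplicative (ZMod q)), (univ.filter fun e : Ed B =>
        x (κ (sr B e, y (sr B e) p)) + w e = x' (κ (tg B e, y (tg B e) p))).card :=
    sum_le_sum fun p _ => card_image_le
  have h3 : ((sat (gm w κ (Pool.Agent.J4H64.UG.mk (sr B) (tg B) (fun e => Multiplicative.ofAdd (w e))
      (fun _ => false) y)) x x').card : ℝ) ≤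
      ((∑ p : Ps C R (Multiplicative (ZMod q)), (univ.filter fun e : Ed B =>
        x (κ (sr B e, y (sr B e) p)) + w e = x' (κ (tg B e, y (tg B e) p))).card : ℕ) : ℝ) := by
    exact_mod_cast h1.trans h2
  refine h3.trans ?_
  push_cast
  calc (∑ p : Ps C R (Multiplicative (ZMod q)), ((univ.filter fun e : Ed B =>
        x (κ (sr B e, y (sr B e) p)) + w e = x' (κ (tg B e, y (tg B e) p))).card : ℝ))
      ≤ ∑ _p : Ps C R (Multiplicative (ZMod q)), δ * (Fintype.card (Ed B) : ℝ) :=
        sum_le_sum fun p _ => hδ (fun v => x (κ (v, y v p))) (fun v => x' (κ (v, y v p)))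
    _ = δ * (Fintype.card (Ed B) * Fintype.card (Ps C R (Multiplicative (ZMod q)))) := by
        rw [sum_const, card_univ, nsmul_eq_mul]
        ring

theorem t_VAL : S_VAL := by
  intro n q _ G hG
  have hc : (0 : ℝ) < G.card := by exact_mod_cast hG.card_pos
  have h1 : ∀ δ : ℝ, (∀ x y : Fin n → ZMod q, ((sat G x y).card : ℝ) ≤ δ * G.card) → value G ≤ δ := by
    intro δ h
    unfold value
    refine ciSup_le fun l => ?_
    rw [div_le_iff₀ hc]
    exact h l.1 l.2
  have h2 : ∀ x y : Fin n → ZMod q, ((sat G x y).card : ℝ) ≤ value G * G.card := by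
    intro x y
    rw [← div_le_iff₀ hc]
    unfold value
    exact le_ciSup (f := fun l : (Fin n → ZMod q) × (Fin n → ZMod q) =>
      ((sat G l.1 l.2).card : ℝ) / G.card) (Set.finite_range _).bddAbove (x, y)
  refine ⟨h1, h2, ?_⟩
  rintro ⟨x, y, h⟩
  refine le_antisymm (h1 1 fun x y => ?_) ?_
  · rw [one_mul]
    exact_mod_cast card_le_card (filter_subset _ _)
  · have h3 := h2 x y
    rw [h] at h3
    by_contra hlt
    rw [not_le] at hlt
    nlinarith

end Pool.Agent.J4H28.UG
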